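import Mathlib

set_option autoImplicit false

/-!
# The cost of making implicit conflicts explicit under stable semantics

One further argument for every element of a set which meets all the implicit conflicts is enough,
and this is sharp: for every `n` in `ℕ ∪ {∞}` there is a compact argumentation framework with
`10 * n` arguments and exactly `n` implicit conflicts such that every conflict-explicit
argumentation framework with the same stable extensions has at least `n` further arguments.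
-/

namespace Pool.Agent.Results.MP_360586_lc.CompactCounterexample

/-- An argumentation framework over the universe `U`: a set `A` of arguments and an attack
relation `R` on `A`. -/
structure AF (U : Type) where
  /-- the arguments -/
  A : Set U
  /-- the attack relation -/
  R : U → U → Prop
  /-- attacks are between arguments -/
  sub : ∀ a b, R a b → a ∈ A ∧ b ∈ A

variable {U : Type}

/-- The stable extensions of `F`: the conflict-free sets of arguments which attack every argument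
outside. -/
def st (F : AF U) : Set (Set U) :=
  {E | E ⊆ F.A ∧ (∀ a ∈ E, ∀ b ∈ E, ¬ F.R a b) ∧ ∀ b ∈ F.A, b ∉ E → ∃ e ∈ E, F.R e b}

/-- `a` and `b` lie together in a member of `X`. -/
def Pairs (X : Set (Set U)) (a b : U) : Prop := ∃ E ∈ X, a ∈ E ∧ b ∈ E

/-- Conflict-explicit under stable semantics: any two (possibly equal) arguments which never lie
together in a stable extension are joined by an attack. -/
def ConflictExplicit (F : AF U) : Prop :=
  ∀ a ∈ F.A, ∀ b ∈ F.A, ¬ Pairs (st F) a b → F.R a b ∨ F.R b a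

/-- `a` is accepted: it lies in some stable extension of `F`. -/
def Accepted (F : AF U) (a : U) : Prop := ∃ E ∈ st F, a ∈ E

/-- Compact: every argument lies in some stable extension. -/
def Compact (F : AF U) : Prop := ∀ a ∈ F.A, Accepted F a

/-- `a` and `b` are in implicit conflict in `F`: they never lie together in a stable extension but
neither attacks the other. -/
def Implicit (F : AF U) (a b : U) : Prop :=
  a ∈ F.A ∧ b ∈ F.A ∧ ¬ Pairs (st F) a b ∧ ¬ F.R a b ∧ ¬ F.R b a

/-! ### The finite data -/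

/-- The stable extensions of the basic framework. -/
def exts : List (List (Fin 11)) :=
  [[0, 5, 8], [0, 6, 9], [0, 8, 9], [1, 2, 6], [1, 3, 4], [2, 6, 7], [3, 6, 7], [4, 7, 8, 9],
    [5, 6, 7]]

/-- The attacks of the basic framework, with arguments `0, ..., 9`. -/
def att0 : List (Fin 11 × Fin 11) :=
  [(0, 2), (0, 3), (0, 4), (0, 7), (1, 5), (1, 7), (1, 8), (2, 0), (2, 3), (2, 4), (2, 5), (2, 8),
    (2, 9), (3, 2), (3, 5), (3, 9), (4, 0), (4, 2), (4, 5), (4, 6), (5, 2), (5, 3), (5, 9), (6, 4),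
    (6, 8), (7, 0), (7, 1), (8, 1), (8, 3), (8, 6), (9, 1), (9, 3), (9, 5)]

/-- The arguments of the basic framework. -/
def dom0 : List (Fin 11) := [0, 1, 2, 3, 4, 5, 6, 7, 8, 9]

/-- All arguments. -/
def dom1 : List (Fin 11) := [0, 1, 2, 3, 4, 5, 6, 7, 8, 9, 10]

/-- Boolean test for stable extensions. -/
def stab (dom : List (Fin 11)) (att : List (Fin 11 × Fin 11)) (x : Fin 11 → Bool) : Bool :=
  att.all (fun p => !(x p.1 && x p.2)) &&
  (dom1.all (fun i => !(x i) || dom.contains i) &&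
  dom.all (fun j => x j || att.any (fun p => (p.2 == j) && x p.1)))

/-- Boolean test for membership in `exts`. -/
def inExts (x : Fin 11 → Bool) : Bool :=
  exts.any (fun s => dom1.all (fun i => x i == s.contains i))

theorem chk0 : ∀ x0 x1 x2 x3 x4 x5 x6 x7 x8 x9 x10 : Bool,
    stab dom0 att0 ![x0, x1, x2, x3, x4, x5, x6, x7, x8, x9, x10] =
      inExts ![x0, x1, x2, x3, x4, x5, x6, x7, x8, x9, x10] := by decide +kernel

theorem vec_eta (x : Fin 11 → Bool) :
    x = ![x 0, x 1, x 2, x 3, x 4, x 5, x 6, x 7, x 8, x 9, x 10] := by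
  funext i
  fin_cases i <;> rfl

/-- Stable extensions of the basic frameworks. -/
def BStable (dom : List (Fin 11)) (att : List (Fin 11 × Fin 11)) (X : Set (Fin 11)) : Prop :=
  (∀ a ∈ X, a ∈ dom) ∧ (∀ a ∈ X, ∀ b ∈ X, (a, b) ∉ att) ∧
    ∀ b ∈ dom, b ∉ X → ∃ a ∈ X, (a, b) ∈ att

/-- Membership in the list of extensions. -/
def InE (X : Set (Fin 11)) : Prop := ∃ s ∈ exts, X = {i | i ∈ s}

theorem mem_dom1 (i : Fin 11) : i ∈ dom1 := by
  fin_cases i <;> simp [dom1]

theorem stab_iff (dom : List (Fin 11)) (att : List (Fin 11 × Fin 11)) (X : Set (Fin 11))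
    [DecidablePred (· ∈ X)] :
    BStable dom att X ↔ stab dom att (fun i => decide (i ∈ X)) = true := by
  simp only [BStable, stab, Bool.and_eq_true, List.all_eq_true, Bool.not_eq_true',
    Bool.and_eq_false_iff, decide_eq_false_iff_not, Bool.or_eq_true, decide_eq_true_eq,
    List.any_eq_true, beq_iff_eq, List.contains_iff_mem]
  constructor
  · rintro ⟨h1, h2, h3⟩
    refine ⟨?_, ?_, ?_⟩
    · rintro ⟨a, b⟩ hp
      by_contra hc
      push Not at hc
      exact h2 a hc.1 b hc.2 hp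
    · intro i _
      by_cases hi : i ∈ X
      · exact Or.inr (h1 i hi)
      · exact Or.inl hi
    · intro j hj
      by_cases hX : j ∈ X
      · exact Or.inl hX
      · obtain ⟨a, ha, hab⟩ := h3 j hj hX
        exact Or.inr ⟨(a, j), hab, rfl, ha⟩
  · rintro ⟨h1, h2, h3⟩
    refine ⟨?_, ?_, ?_⟩
    · intro a ha
      rcases h2 a (mem_dom1 a) with h | h
      · exact absurd ha h
      · exact h
    · intro a ha b hb hab
      rcases h1 _ hab with h | h
      · exact h ha
      · exact h hb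
    · intro b hb hbX
      rcases h3 b hb with h | ⟨⟨a, b'⟩, hp, rfl, ha⟩
      · exact absurd h hbX
      · exact ⟨a, ha, hp⟩

theorem inE_iff (X : Set (Fin 11)) [DecidablePred (· ∈ X)] :
    InE X ↔ inExts (fun i => decide (i ∈ X)) = true := by
  simp only [InE, inExts, List.any_eq_true, List.all_eq_true, beq_iff_eq]
  constructor
  · rintro ⟨s, hs, hX⟩
    refine ⟨s, hs, ?_⟩
    intro i _
    rw [Bool.eq_iff_iff, decide_eq_true_eq, List.contains_iff_mem, hX]
    rfl
  · rintro ⟨s, hs, h⟩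
    refine ⟨s, hs, ?_⟩
    ext i
    have := h i (mem_dom1 i)
    rw [Bool.eq_iff_iff, decide_eq_true_eq, List.contains_iff_mem] at this
    exact this

theorem bstable0 (X : Set (Fin 11)) : BStable dom0 att0 X ↔ InE X := by
  classical
  rw [stab_iff, inE_iff, vec_eta (fun i => decide (i ∈ X)), chk0]

/-- `a` and `b` lie together in an extension of the list. -/
def Cov (a b : Fin 11) : Prop := ∃ s ∈ exts, a ∈ s ∧ b ∈ s

instance (a b : Fin 11) : Decidable (Cov a b) := by unfold Cov; infer_instance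

theorem cov_self : ∀ a ∈ dom0, Cov a a := by decide +kernel

theorem not_cov_01 : ¬ Cov 0 1 := by decide +kernel

theorem not_cov_10 : ¬ Cov 1 0 := by decide +kernel

theorem cov_M : ∀ a ∈ ([0, 5, 6] : List (Fin 11)), ∀ b ∈ ([0, 5, 6] : List (Fin 11)), Cov a b := by
  decide +kernel

theorem cov_M' : ∀ a ∈ ([1, 3, 6] : List (Fin 11)), ∀ b ∈ ([1, 3, 6] : List (Fin 11)),
    Cov a b := by decide +kernel

/-- Only `1` can be the argument that `{0, 5, 6}` does not attack. -/
theorem kill_M : ∀ b ∈ dom0, b ∉ ([0, 5, 6] : List (Fin 11)) → b ≠ 1 →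
    ∃ s ∈ exts, b ∉ s ∧ ∀ a ∈ s, a ∉ ([0, 5, 6] : List (Fin 11)) → Cov a b := by decide +kernel

/-- Only `0` can be the argument that `{1, 3, 6}` does not attack. -/
theorem kill_M' : ∀ b ∈ dom0, b ∉ ([1, 3, 6] : List (Fin 11)) → b ≠ 0 →
    ∃ s ∈ exts, b ∉ s ∧ ∀ a ∈ s, a ∉ ([1, 3, 6] : List (Fin 11)) → Cov a b := by decide +kernel

theorem exts_dom : ∀ s ∈ exts, ∀ a ∈ s, a ∈ dom0 := by decide +kernel

theorem implicit0 : ∀ a ∈ dom0, ∀ b ∈ dom0, ¬ Cov a b → (a, b) ∉ att0 → (b, a) ∉ att0 →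
    (a = 0 ∧ b = 1) ∨ (a = 1 ∧ b = 0) := by
  decide +kernel

theorem not_inE_M : ¬ InE {a | a ∈ ([0, 5, 6] : List (Fin 11))} := by
  rintro ⟨s, hs, h⟩
  have key : ∀ s ∈ exts, ¬ ∀ a ∈ dom1, (a ∈ ([0, 5, 6] : List (Fin 11)) ↔ a ∈ s) := by
    decide +kernel
  exact key s hs (fun a _ => by
    have := Set.ext_iff.1 h a
    exact this)

theorem not_inE_M' : ¬ InE {a | a ∈ ([1, 3, 6] : List (Fin 11))} := by
  rintro ⟨s, hs, h⟩
  have key : ∀ s ∈ exts, ¬ ∀ a ∈ dom1, (a ∈ ([1, 3, 6] : List (Fin 11)) ↔ a ∈ s) := by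
    decide +kernel
  exact key s hs (fun a _ => by
    have := Set.ext_iff.1 h a
    exact this)

/-! ### Disjoint copies -/

/-- Disjoint copies, indexed by the natural numbers below `n`, of a basic framework. -/
def glue (g : ℕ × Fin 11 → U) (n : ℕ∞) (dom : List (Fin 11)) (att : List (Fin 11 × Fin 11)) :
    AF U where
  A := {u | ∃ i : ℕ, (i : ℕ∞) < n ∧ ∃ a ∈ dom, u = g (i, a)}
  R u v := ∃ i : ℕ, (i : ℕ∞) < n ∧ ∃ a ∈ dom, ∃ b ∈ dom, (a, b) ∈ att ∧ u = g (i, a) ∧
    v = g (i, b)
  sub := by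
    rintro u v ⟨i, hi, a, ha, b, hb, _, rfl, rfl⟩
    exact ⟨⟨i, hi, a, ha, rfl⟩, ⟨i, hi, b, hb, rfl⟩⟩

theorem st_glue {g : ℕ × Fin 11 → U} (hg : Function.Injective g) (n : ℕ∞)
    (dom : List (Fin 11)) (att : List (Fin 11 × Fin 11)) (E : Set U) :
    E ∈ st (glue g n dom att) ↔ E ⊆ (glue g n dom att).A ∧
      ∀ i : ℕ, (i : ℕ∞) < n → BStable dom att {a | g (i, a) ∈ E} := by
  constructor
  · rintro ⟨h1, h2, h3⟩
    refine ⟨h1, fun i hi => ⟨?_, ?_, ?_⟩⟩
    · intro a ha
      obtain ⟨i', _, a', ha', h⟩ := h1 ha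
      have := hg h
      simp only [Prod.mk.injEq] at this
      rw [this.2]; exact ha'
    · intro a ha b hb hab
      have hda : a ∈ dom := by
        obtain ⟨i', _, a', ha', h⟩ := h1 ha
        have := hg h
        simp only [Prod.mk.injEq] at this
        rw [this.2]; exact ha'
      have hdb : b ∈ dom := by
        obtain ⟨i', _, a', ha', h⟩ := h1 hb
        have := hg h
        simp only [Prod.mk.injEq] at this
        rw [this.2]; exact ha'
      exact h2 _ ha _ hb ⟨i, hi, a, hda, b, hdb, hab, rfl, rfl⟩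
    · intro b hb hbX
      obtain ⟨e, he, i', hi', a, ha, b', hb', hab, rfl, h⟩ := h3 (g (i, b)) ⟨i, hi, b, hb, rfl⟩ hbX
      have := hg h
      simp only [Prod.mk.injEq] at this
      obtain ⟨rfl, rfl⟩ := this
      exact ⟨a, he, hab⟩
  · rintro ⟨h1, h2⟩
    refine ⟨h1, ?_, ?_⟩
    · rintro u hu v hv ⟨i, hi, a, _, b, _, hab, rfl, rfl⟩
      exact (h2 i hi).2.1 a hu b hv hab
    · rintro v ⟨i, hi, b, hb, rfl⟩ hv
      obtain ⟨a, ha, hab⟩ := (h2 i hi).2.2 b hb hv
      exact ⟨g (i, a), ha, i, hi, a, (h2 i hi).1 a ha, b, hb, hab, rfl, rfl⟩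

theorem inE_dom {X : Set (Fin 11)} (h : InE X) : ∀ a ∈ X, a ∈ dom0 := by
  obtain ⟨s, hs, rfl⟩ := h
  exact fun a ha => exts_dom s hs a ha

theorem st_glue0 {g : ℕ × Fin 11 → U} (hg : Function.Injective g) (n : ℕ∞) (E : Set U) :
    E ∈ st (glue g n dom0 att0) ↔ E ⊆ (glue g n dom0 att0).A ∧
      ∀ i : ℕ, (i : ℕ∞) < n → InE {a | g (i, a) ∈ E} := by
  rw [st_glue hg]
  simp only [bstable0]

/-- The union of given sets in the copies. -/
def uni (g : ℕ × Fin 11 → U) (n : ℕ∞) (f : ℕ → List (Fin 11)) : Set U :=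
  {u | ∃ i : ℕ, (i : ℕ∞) < n ∧ ∃ a ∈ f i, u = g (i, a)}

theorem mem_uni {g : ℕ × Fin 11 → U} (hg : Function.Injective g) {n : ℕ∞}
    {f : ℕ → List (Fin 11)} {i : ℕ} (hi : (i : ℕ∞) < n) (a : Fin 11) :
    g (i, a) ∈ uni g n f ↔ a ∈ f i := by
  constructor
  · rintro ⟨i', _, a', ha', h⟩
    have := hg h
    simp only [Prod.mk.injEq] at this
    obtain ⟨rfl, rfl⟩ := this
    exact ha'
  · intro h
    exact ⟨i, hi, a, h, rfl⟩

theorem uni_mem_st {g : ℕ × Fin 11 → U} (hg : Function.Injective g) {n : ℕ∞}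
    {f : ℕ → List (Fin 11)} (hf : ∀ i, f i ∈ exts) : uni g n f ∈ st (glue g n dom0 att0) := by
  rw [st_glue0 hg]
  refine ⟨?_, ?_⟩
  · rintro u ⟨i, hi, a, ha, rfl⟩
    exact ⟨i, hi, a, exts_dom _ (hf i) a ha, rfl⟩
  · intro i hi
    refine ⟨f i, hf i, ?_⟩
    ext a
    exact mem_uni hg hi a

/-- The reference extension. -/
def ref : List (Fin 11) := [0, 5, 8]

theorem ref_mem : ref ∈ exts := by decide +kernel

/-- Arguments of different copies lie together in a stable extension. -/
theorem pairs_ne {g : ℕ × Fin 11 → U} (hg : Function.Injective g) {n : ℕ∞} {i j : ℕ}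
    (hi : (i : ℕ∞) < n) (hj : (j : ℕ∞) < n) (hij : i ≠ j) {a b : Fin 11} (ha : a ∈ dom0)
    (hb : b ∈ dom0) : Pairs (st (glue g n dom0 att0)) (g (i, a)) (g (j, b)) := by
  obtain ⟨s, hs, has, _⟩ := cov_self a ha
  obtain ⟨t, ht, hbt, _⟩ := cov_self b hb
  refine ⟨uni g n (fun l => if l = i then s else if l = j then t else ref), uni_mem_st hg ?_,
    ?_, ?_⟩
  · intro l
    split_ifs
    · exact hs
    · exact ht
    · exact ref_mem
  · rw [mem_uni hg hi]
    simpa using has
  · rw [mem_uni hg hj]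
    simpa [hij.symm] using hbt

theorem pairs_eq {g : ℕ × Fin 11 → U} (hg : Function.Injective g) {n : ℕ∞} {i : ℕ}
    (hi : (i : ℕ∞) < n) (a b : Fin 11) :
    Pairs (st (glue g n dom0 att0)) (g (i, a)) (g (i, b)) ↔ Cov a b := by
  constructor
  · rintro ⟨E, hE, h1, h2⟩
    rw [st_glue0 hg] at hE
    obtain ⟨s, hs, h3⟩ := hE.2 i hi
    refine ⟨s, hs, ?_, ?_⟩
    · have : a ∈ {a | g (i, a) ∈ E} := h1
      rw [h3] at this
      exact this
    · have : b ∈ {a | g (i, a) ∈ E} := h2
      rw [h3] at this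
      exact this
  · rintro ⟨s, hs, h1, h2⟩
    refine ⟨uni g n (fun l => if l = i then s else ref), uni_mem_st hg ?_, ?_, ?_⟩
    · intro l
      split_ifs
      · exact hs
      · exact ref_mem
    · rw [mem_uni hg hi]
      simpa using h1
    · rw [mem_uni hg hi]
      simpa using h2

theorem not_attack {F G : AF U} (h : st G = st F) {u v : U} (hp : Pairs (st F) u v) :
    ¬ G.R u v := by
  obtain ⟨E, hE, hu, hv⟩ := hp
  rw [← h] at hE
  exact hE.2.1 u hu v hv

/-- The key lemma: something outside the set made of `N` in copy `i` and of the reference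
extension in the other copies is not attacked, and it is the critical argument of copy `i` or a
new argument. -/
theorem killer {g : ℕ × Fin 11 → U} (hg : Function.Injective g) {n : ℕ∞} {G : AF U}
    (hst : st G = st (glue g n dom0 att0)) {i : ℕ} (hi : (i : ℕ∞) < n) (N : List (Fin 11))
    (c : Fin 11) (hN : ∀ a ∈ N, a ∈ dom0) (hcov : ∀ a ∈ N, ∀ b ∈ N, Cov a b)
    (hnot : ¬ InE {a | a ∈ N})
    (hkill : ∀ b ∈ dom0, b ∉ N → b ≠ c → ∃ s ∈ exts, b ∉ s ∧ ∀ a ∈ s, a ∉ N → Cov a b) :
    ∃ r ∈ G.A, (∀ e ∈ uni g n (fun l => if l = i then N else ref), ¬ G.R e r) ∧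
      (r = g (i, c) ∨ r ∉ (glue g n dom0 att0).A) := by
  set F := glue g n dom0 att0 with hF
  set W := uni g n (fun l => if l = i then N else ref) with hW
  -- `F.A ⊆ G.A`
  have hsub : F.A ⊆ G.A := by
    rintro u ⟨j, hj, a, ha, rfl⟩
    obtain ⟨E, hE, h1, _⟩ := (pairs_eq hg hj a a).2 (cov_self a ha)
    rw [← hF, ← hst] at hE
    exact hE.1 h1
  have hWF : W ⊆ F.A := by
    rintro u ⟨j, hj, a, ha, rfl⟩
    refine ⟨j, hj, a, ?_, rfl⟩
    dsimp only at ha
    split_ifs at ha
    · exact hN a ha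
    · exact exts_dom _ ref_mem a ha
  have hWi : ∀ a, g (i, a) ∈ W ↔ a ∈ N := by
    intro a
    rw [hW, mem_uni hg hi]
    simp
  have hWj : ∀ j : ℕ, (j : ℕ∞) < n → j ≠ i → ∀ a, g (j, a) ∈ W ↔ a ∈ ref := by
    intro j hj hji a
    rw [hW, mem_uni hg hj]
    simp [hji]
  -- `W` is conflict-free in `G`
  have hcf : ∀ u ∈ W, ∀ v ∈ W, ¬ G.R u v := by
    intro u hu v hv
    apply not_attack hst
    obtain ⟨j, hj, a, ha, rfl⟩ := id hu
    obtain ⟨l, hl, b, hb, rfl⟩ := id hv
    have had : a ∈ dom0 := by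
      obtain ⟨_, _, a', ha', h⟩ := hWF hu
      have := hg h
      simp only [Prod.mk.injEq] at this
      rw [this.2]; exact ha'
    have hbd : b ∈ dom0 := by
      obtain ⟨_, _, a', ha', h⟩ := hWF hv
      have := hg h
      simp only [Prod.mk.injEq] at this
      rw [this.2]; exact ha'
    by_cases hjl : j = l
    · subst hjl
      rw [pairs_eq hg hj]
      by_cases hji : j = i
      · subst hji
        exact hcov a ((hWi a).1 hu) b ((hWi b).1 hv)
      · exact ⟨ref, ref_mem, (hWj j hj hji a).1 hu, (hWj j hj hji b).1 hv⟩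
    · exact pairs_ne hg hj hl hjl had hbd
  -- `W` is not a stable extension
  have hns : W ∉ st G := by
    rw [hst, hF, st_glue0 hg]
    rintro ⟨_, h2⟩
    apply hnot
    have := h2 i hi
    have he : {a | g (i, a) ∈ W} = {a | a ∈ N} := by
      ext a; exact hWi a
    rw [he] at this
    exact this
  have hex : ∃ r ∈ G.A, r ∉ W ∧ ∀ e ∈ W, ¬ G.R e r := by
    by_contra hcon
    push Not at hcon
    exact hns ⟨hWF.trans hsub, hcf, fun b hb hbW => hcon b hb hbW⟩
  obtain ⟨r, hr, hrW, hre⟩ := hex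
  refine ⟨r, hr, hre, ?_⟩
  by_contra hcon
  push Not at hcon
  obtain ⟨hrc, hrF⟩ := hcon
  obtain ⟨j, hj, b, hb, rfl⟩ := id hrF
  by_cases hji : j = i
  · subst hji
    have hbN : b ∉ N := fun h => hrW ((hWi b).2 h)
    have hbc : b ≠ c := by
      rintro rfl
      exact hrc rfl
    obtain ⟨s, hs, hbs, hsc⟩ := hkill b hb hbN hbc
    have hE : uni g n (fun l => if l = j then s else ref) ∈ st F := by
      apply uni_mem_st hg
      intro l
      split_ifs
      · exact hs
      · exact ref_mem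
    rw [← hst] at hE
    have hout : g (j, b) ∉ uni g n (fun l => if l = j then s else ref) := by
      rw [mem_uni hg hj]
      simpa using hbs
    obtain ⟨e, he, hR⟩ := hE.2.2 (g (j, b)) hr hout
    obtain ⟨l, hl, a, ha, rfl⟩ := id he
    by_cases hlj : l = j
    · subst hlj
      have has : a ∈ s := by simpa using ha
      by_cases haN : a ∈ N
      · exact hre _ ((hWi a).2 haN) hR
      · exact not_attack hst ((pairs_eq hg hj a b).2 (hsc a has haN)) hR
    · have har : a ∈ ref := by simpa [hlj] using ha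
      exact hre _ ((hWj l hl hlj a).2 har) hR
  · have hbr : b ∉ ref := fun h => hrW ((hWj j hj hji b).2 h)
    have hE : uni g n (fun _ => ref) ∈ st F := uni_mem_st hg (fun _ => ref_mem)
    rw [← hst] at hE
    have hout : g (j, b) ∉ uni g n (fun _ => ref) := by
      rw [mem_uni hg hj]
      exact hbr
    obtain ⟨e, he, hR⟩ := hE.2.2 (g (j, b)) hr hout
    obtain ⟨l, hl, a, ha, rfl⟩ := id he
    by_cases hli : l = i
    · subst hli
      exact not_attack hst (pairs_ne hg hl hj (Ne.symm hji) (exts_dom _ ref_mem a ha) hb) hR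
    · exact hre _ ((hWj l hl hli a).2 ha) hR

theorem encard_below (n : ℕ∞) : {i : ℕ | (i : ℕ∞) < n}.encard = n := by
  induction n using ENat.recTopCoe with
  | top =>
    have : {i : ℕ | (i : ℕ∞) < ⊤} = Set.univ := by
      ext i; simp
    rw [this, Set.encard_univ]
    simp
  | coe m =>
    have : {i : ℕ | (i : ℕ∞) < (m : ℕ∞)} = (Finset.range m : Set ℕ) := by
      ext i; simp
    rw [this, Set.encard_coe_eq_coe_finsetCard]
    simp

theorem encard_prod_fin (S : Set ℕ) (T : Finset (Fin 11)) :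
    (S ×ˢ (T : Set (Fin 11))).encard = T.card * S.encard := by
  rw [Set.encard_prod, Set.encard_coe_eq_coe_finsetCard, mul_comm]

theorem encard_glue {g : ℕ × Fin 11 → U} (hg : Function.Injective g) (n : ℕ∞)
    (dom : List (Fin 11)) (att : List (Fin 11 × Fin 11)) {k : ℕ} (hk : dom.toFinset.card = k) :
    (glue g n dom att).A.encard = k * n := by
  have : (glue g n dom att).A = g '' ({i : ℕ | (i : ℕ∞) < n} ×ˢ (dom.toFinset : Set (Fin 11))) := by
    ext u
    constructor
    · rintro ⟨i, hi, a, ha, rfl⟩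
      exact ⟨(i, a), ⟨hi, by simpa using ha⟩, rfl⟩
    · rintro ⟨⟨i, a⟩, ⟨hi, ha⟩, rfl⟩
      exact ⟨i, hi, a, by simpa using ha, rfl⟩
  rw [this, hg.encard_image, encard_prod_fin, hk, encard_below]

/-- The lower bound: for every `n` in `ℕ ∪ {∞}` there is a compact argumentation framework with
`10 * n` arguments and exactly `n` implicit conflicts such that `n` further arguments are
needed. -/
theorem lower [Infinite U] (n : ℕ∞) :
    ∃ F : AF U, (F.A)ᶜ.Infinite ∧ F.A.encard = 10 * n ∧ Compact F ∧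
      {p : Sym2 U | ∃ a b, p = s(a, b) ∧ Implicit F a b}.encard = n ∧
      (∀ G : AF U, ConflictExplicit G → st G = st F → n ≤ (G.A \ F.A).encard) := by
  classical
  obtain ⟨g, hg⟩ : ∃ g : ℕ × Fin 11 → U, Function.Injective g := by
    exact ⟨fun x => Infinite.natEmbedding U (Encodable.encode x),
      (Infinite.natEmbedding U).injective.comp Encodable.encode_injective⟩
  have hI : {i : ℕ | (i : ℕ∞) < n}.encard = n := encard_below n
  have h0 : (0 : Fin 11) ∈ dom0 := by decide
  have h1 : (1 : Fin 11) ∈ dom0 := by decide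
  have hinja : ∀ a : Fin 11, Function.Injective (fun i : ℕ => g (i, a)) := by
    intro a i j h
    have := hg h
    simp only [Prod.mk.injEq] at this
    exact this.1
  have himp : ∀ u v, Implicit (glue g n dom0 att0) u v → ∃ i : ℕ, (i : ℕ∞) < n ∧
      ((u = g (i, 0) ∧ v = g (i, 1)) ∨ (u = g (i, 1) ∧ v = g (i, 0))) := by
    rintro u v ⟨⟨i, hi, a, ha, rfl⟩, ⟨j, hj, b, hb, rfl⟩, hp, hR1, hR2⟩
    by_cases hij : i = j
    · subst hij
      rw [pairs_eq hg hi] at hp
      refine ⟨i, hi, ?_⟩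
      rcases implicit0 a ha b hb hp (fun h => hR1 ⟨i, hi, a, ha, b, hb, h, rfl, rfl⟩)
        (fun h => hR2 ⟨i, hi, b, hb, a, ha, h, rfl, rfl⟩) with ⟨rfl, rfl⟩ | ⟨rfl, rfl⟩
      · exact Or.inl ⟨rfl, rfl⟩
      · exact Or.inr ⟨rfl, rfl⟩
    · exact absurd (pairs_ne hg hi hj hij ha hb) hp
  refine ⟨glue g n dom0 att0, ?_, ?_, ?_, ?_, ?_⟩
  · apply (Set.infinite_range_of_injective (hinja 10)).mono
    rintro _ ⟨i, rfl⟩ ⟨j, _, b, hb, h⟩
    have := hg h
    simp only [Prod.mk.injEq] at this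
    rw [← this.2] at hb
    exact absurd hb (by decide)
  · exact encard_glue hg n dom0 att0 (by decide : dom0.toFinset.card = 10)
  · rintro u ⟨i, hi, a, ha, rfl⟩
    obtain ⟨E, hE, h1, _⟩ := (pairs_eq hg hi a a).2 (cov_self a ha)
    exact ⟨E, hE, h1⟩
  · have hset : {p : Sym2 U | ∃ a b, p = s(a, b) ∧ Implicit (glue g n dom0 att0) a b} =
        (fun i : ℕ => s(g (i, 0), g (i, 1))) '' {i : ℕ | (i : ℕ∞) < n} := by
      ext p
      constructor
      · rintro ⟨u, v, rfl, huv⟩
        obtain ⟨i, hi, ⟨rfl, rfl⟩ | ⟨rfl, rfl⟩⟩ := himp u v huv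
        · exact ⟨i, hi, rfl⟩
        · exact ⟨i, hi, Sym2.eq_swap⟩
      · rintro ⟨i, hi, rfl⟩
        refine ⟨g (i, 0), g (i, 1), rfl, ⟨i, hi, 0, h0, rfl⟩, ⟨i, hi, 1, h1, rfl⟩, ?_, ?_, ?_⟩
        · rw [pairs_eq hg hi]
          exact not_cov_01
        · rintro ⟨j, _, a, _, b, _, hab, h2, h3⟩
          have h2' := hg h2
          have h3' := hg h3
          simp only [Prod.mk.injEq] at h2' h3'
          rw [← h2'.2, ← h3'.2] at hab
          exact absurd hab (by decide)
        · rintro ⟨j, _, a, _, b, _, hab, h2, h3⟩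
          have h2' := hg h2
          have h3' := hg h3
          simp only [Prod.mk.injEq] at h2' h3'
          rw [← h2'.2, ← h3'.2] at hab
          exact absurd hab (by decide)
    have hinj : Function.Injective (fun i : ℕ => s(g (i, 0), g (i, 1))) := by
      intro i j h
      have h' : s(g (i, 0), g (i, 1)) = s(g (j, 0), g (j, 1)) := h
      rw [Sym2.eq_iff] at h'
      rcases h' with ⟨h2, _⟩ | ⟨h2, _⟩
      · have := hg h2
        simp only [Prod.mk.injEq] at this
        exact this.1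
      · have := hg h2
        simp only [Prod.mk.injEq] at this
        exact this.1
    rw [hset, hinj.encard_image, hI]
  · intro G hG hst
    have hsub : (glue g n dom0 att0).A ⊆ G.A := by
      rintro u ⟨j, hj, a, ha, rfl⟩
      obtain ⟨E, hE, h1, _⟩ := (pairs_eq hg hj a a).2 (cov_self a ha)
      rw [← hst] at hE
      exact hE.1 h1
    have hr : ∀ i : ℕ, (i : ℕ∞) < n → ∃ r ∈ G.A \ (glue g n dom0 att0).A,
        ∃ N : List (Fin 11), ∀ e ∈ uni g n (fun l => if l = i then N else ref), ¬ G.R e r := by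
      intro i hi
      have hnp : ¬ Pairs (st G) (g (i, 0)) (g (i, 1)) := by
        rw [hst, pairs_eq hg hi]
        exact not_cov_01
      rcases hG _ (hsub ⟨i, hi, 0, h0, rfl⟩) _ (hsub ⟨i, hi, 1, h1, rfl⟩) hnp with hR | hR
      · obtain ⟨r, hr1, hr2, hr3⟩ := killer hg hst hi [0, 5, 6] 1 (by decide) cov_M not_inE_M
          kill_M
        rcases hr3 with rfl | hr3
        · exact absurd hR (hr2 _ ((mem_uni hg hi 0).2 (by simp)))
        · exact ⟨r, ⟨hr1, hr3⟩, _, hr2⟩
      · obtain ⟨r, hr1, hr2, hr3⟩ := killer hg hst hi [1, 3, 6] 0 (by decide) cov_M' not_inE_M'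
          kill_M'
        rcases hr3 with rfl | hr3
        · exact absurd hR (hr2 _ ((mem_uni hg hi 1).2 (by simp)))
        · exact ⟨r, ⟨hr1, hr3⟩, _, hr2⟩
    choose! r hrA N hrN using hr
    have hinj : Set.InjOn r {i : ℕ | (i : ℕ∞) < n} := by
      intro i hi j hj hij
      by_contra hne
      have hE : uni g n (fun _ => ref) ∈ st (glue g n dom0 att0) :=
        uni_mem_st hg (fun _ => ref_mem)
      have hout : r i ∉ uni g n (fun _ => ref) := by
        intro h
        exact (hrA i hi).2 ((uni_mem_st hg (fun _ => ref_mem)).1 h)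
      rw [← hst] at hE
      obtain ⟨e, he, hR⟩ := hE.2.2 (r i) (hrA i hi).1 hout
      obtain ⟨l, hl, a, ha, rfl⟩ := id he
      by_cases hli : l = i
      · have hlj : l ≠ j := by rintro rfl; exact hne hli.symm
        rw [hij] at hR
        exact hrN j hj _ ((mem_uni hg hl a).2 (by simpa [hlj] using ha)) hR
      · exact hrN i hi _ ((mem_uni hg hl a).2 (by simpa [hli] using ha)) hR
    calc n = {i : ℕ | (i : ℕ∞) < n}.encard := hI.symm
      _ = (r '' {i : ℕ | (i : ℕ∞) < n}).encard := (hinj.encard_image).symm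
      _ ≤ (G.A \ (glue g n dom0 att0).A).encard := by
          apply Set.encard_le_encard
          rintro _ ⟨i, hi, rfl⟩
          exact hrA i hi

/-! ### The upper bound -/

/-- Add to `F`, for every `c` in `C`, a self-attacking argument `z c` attacked by `c` and by the
attackers of `c`; the arguments of `C` are attacked by all the arguments with which they never lie
together in a stable extension, and rejected and new arguments attack all the arguments. -/
def repair (F : AF U) (C : Set U) (hC : C ⊆ F.A) (z : U → U) : AF U where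
  A := F.A ∪ z '' C
  R u v := F.R u v ∨
    (u ∈ F.A ∧ v ∈ F.A ∧ ((¬ Accepted F u) ∨ (v ∈ C ∧ ¬ Pairs (st F) u v))) ∨
    (∃ c ∈ C, v = z c ∧ (F.R u c ∨ u = c)) ∨
    (u ∈ z '' C ∧ v ∈ F.A ∪ z '' C)
  sub := by
    rintro u v (h | ⟨h1, h2, _⟩ | ⟨c, hc, rfl, h⟩ | ⟨h1, h2⟩)
    · exact ⟨Or.inl (F.sub u v h).1, Or.inl (F.sub u v h).2⟩
    · exact ⟨Or.inl h1, Or.inl h2⟩
    · refine ⟨Or.inl ?_, Or.inr ⟨c, hc, rfl⟩⟩
      rcases h with h | rfl
      · exact (F.sub u c h).1
      · exact hC hc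
    · exact ⟨Or.inr h1, h2⟩

theorem st_repair (F : AF U) (C : Set U) (hC : C ⊆ F.A) (z : U → U) (hz : Set.InjOn z C)
    (hzF : ∀ c ∈ C, z c ∉ F.A) : st (repair F C hC z) = st F := by
  ext S
  constructor
  · rintro ⟨h1, h2, h3⟩
    have hSz : ∀ u ∈ S, u ∉ z '' C := by
      intro u hu huz
      exact h2 u hu u hu (Or.inr (Or.inr (Or.inr ⟨huz, Or.inr huz⟩)))
    have hSF : S ⊆ F.A := by
      intro u hu
      rcases h1 hu with h | h
      · exact h
      · exact absurd h (hSz u hu)
    have hacc : ∀ u ∈ S, Accepted F u := by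
      intro u hu
      by_contra hn
      exact h2 u hu u hu (Or.inr (Or.inl ⟨hSF hu, hSF hu, Or.inl hn⟩))
    refine ⟨hSF, fun a ha b hb hab => h2 a ha b hb (Or.inl hab), ?_⟩
    intro b hb hbS
    obtain ⟨e, he, hR | ⟨_, _, hR | ⟨hbC, _⟩⟩ | ⟨c, hc, rfl, _⟩ | ⟨hez, _⟩⟩ :=
      h3 b (Or.inl hb) hbS
    · exact ⟨e, he, hR⟩
    · exact absurd (hacc e he) hR
    · have hzb : z b ∉ S := fun h => hSz _ h ⟨b, hbC, rfl⟩
      obtain ⟨e', he', hR | ⟨_, hR, _⟩ | ⟨c, hc, hcz, hR⟩ | ⟨hez, _⟩⟩ :=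
        h3 (z b) (Or.inr ⟨b, hbC, rfl⟩) hzb
      · exact absurd (F.sub _ _ hR).2 (hzF b hbC)
      · exact absurd hR (hzF b hbC)
      · have : b = c := hz hbC hc hcz
        subst this
        rcases hR with hR | rfl
        · exact ⟨e', he', hR⟩
        · exact absurd he' hbS
      · exact absurd hez (hSz e' he')
    · exact absurd hb (hzF c hc)
    · exact absurd hez (hSz e he)
  · intro hS
    obtain ⟨h1, h2, h3⟩ := id hS
    have hSz : ∀ u ∈ S, u ∉ z '' C := by
      rintro u hu ⟨c, hc, rfl⟩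
      exact hzF c hc (h1 hu)
    refine ⟨fun u hu => Or.inl (h1 hu), ?_, ?_⟩
    · rintro a ha b hb (h | ⟨_, _, h | ⟨_, h⟩⟩ | ⟨c, hc, rfl, _⟩ | ⟨h, _⟩)
      · exact h2 a ha b hb h
      · exact h ⟨S, hS, ha⟩
      · exact h ⟨S, hS, ha, hb⟩
      · exact hSz _ hb ⟨c, hc, rfl⟩
      · exact hSz a ha h
    · rintro b (hb | ⟨c, hc, rfl⟩) hbS
      · obtain ⟨e, he, hR⟩ := h3 b hb hbS
        exact ⟨e, he, Or.inl hR⟩
      · by_cases hcS : c ∈ S
        · exact ⟨c, hcS, Or.inr (Or.inr (Or.inl ⟨c, hc, rfl, Or.inr rfl⟩))⟩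
        · obtain ⟨e, he, hR⟩ := h3 c (hC hc) hcS
          exact ⟨e, he, Or.inr (Or.inr (Or.inl ⟨c, hc, rfl, Or.inl hR⟩))⟩

theorem explicit_repair (F : AF U) (C : Set U) (hC : C ⊆ F.A) (z : U → U)
    (hz : Set.InjOn z C) (hzF : ∀ c ∈ C, z c ∉ F.A)
    (hcov : ∀ a b, Accepted F a → Accepted F b → Implicit F a b → a ∈ C ∨ b ∈ C) :
    ConflictExplicit (repair F C hC z) := by
  intro u hu v hv hp
  rw [st_repair F C hC z hz hzF] at hp
  by_cases huz : u ∈ z '' C
  · exact Or.inl (Or.inr (Or.inr (Or.inr ⟨huz, hv⟩)))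
  by_cases hvz : v ∈ z '' C
  · exact Or.inr (Or.inr (Or.inr (Or.inr ⟨hvz, hu⟩)))
  have huF : u ∈ F.A := hu.resolve_right huz
  have hvF : v ∈ F.A := hv.resolve_right hvz
  by_cases hua : Accepted F u
  · by_cases hva : Accepted F v
    · by_cases hR1 : F.R u v
      · exact Or.inl (Or.inl hR1)
      by_cases hR2 : F.R v u
      · exact Or.inr (Or.inl hR2)
      rcases hcov u v hua hva ⟨huF, hvF, hp, hR1, hR2⟩ with h | h
      · refine Or.inr (Or.inr (Or.inl ⟨hvF, huF, Or.inr ⟨h, ?_⟩⟩))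
        rintro ⟨E, hE, h1, h2⟩
        exact hp ⟨E, hE, h2, h1⟩
      · exact Or.inl (Or.inr (Or.inl ⟨huF, hvF, Or.inr ⟨h, hp⟩⟩))
    · exact Or.inr (Or.inr (Or.inl ⟨hvF, huF, Or.inl hva⟩))
  · exact Or.inl (Or.inr (Or.inl ⟨huF, hvF, Or.inl hua⟩))

theorem exists_inj [Countable U] [Nonempty U] {C D : Set U} (h : C.encard ≤ D.encard) :
    ∃ z : U → U, Set.InjOn z C ∧ ∀ c ∈ C, z c ∈ D := by
  classical
  obtain ⟨f⟩ : Nonempty (C ↪ D) := by
    by_cases hD : D.Finite
    · have hC : C.Finite := by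
        rw [← Set.encard_lt_top_iff] at hD ⊢
        exact lt_of_le_of_lt h hD
      have := hC.to_subtype
      have := hD.to_subtype
      have := Fintype.ofFinite C
      have := Fintype.ofFinite D
      apply Function.Embedding.nonempty_of_card_le
      rw [Set.encard_eq_coe_toFinset_card, Set.encard_eq_coe_toFinset_card,
        Set.toFinset_card, Set.toFinset_card] at h
      exact_mod_cast h
    · obtain ⟨e, he⟩ := exists_injective_nat C
      exact ⟨⟨fun c => (Set.Infinite.natEmbedding D hD) (e c),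
        (Set.Infinite.natEmbedding D hD).injective.comp he⟩⟩
  refine ⟨fun u => if hu : u ∈ C then (f ⟨u, hu⟩ : U) else u, ?_, ?_⟩
  · intro u hu v hv huv
    simp only [hu, hv, dif_pos] at huv
    have := f.injective (Subtype.ext huv)
    exact congrArg Subtype.val this
  · intro c hc
    simp only [hc, dif_pos]
    exact (f ⟨c, hc⟩).2

/-- The upper bound. -/
theorem upper [Countable U] [Nonempty U] (F : AF U) (C : Set U) (hC : C ⊆ F.A)
    (hcov : ∀ a b, Accepted F a → Accepted F b → Implicit F a b → a ∈ C ∨ b ∈ C)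
    (hroom : C.encard ≤ (F.A)ᶜ.encard) :
    ∃ G : AF U, ConflictExplicit G ∧ st G = st F ∧ F.A ⊆ G.A ∧ (∀ a b, F.R a b → G.R a b) ∧
      (G.A \ F.A).encard = C.encard := by
  obtain ⟨z, hz, hzF⟩ := exists_inj hroom
  refine ⟨repair F C hC z, explicit_repair F C hC z hz hzF hcov, st_repair F C hC z hz hzF,
    fun u hu => Or.inl hu, fun a b h => Or.inl h, ?_⟩
  have : (repair F C hC z).A \ F.A = z '' C := by
    ext u
    constructor
    · rintro ⟨h | h, h2⟩
      · exact absurd h h2
      · exact h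
    · rintro ⟨c, hc, rfl⟩
      exact ⟨Or.inr ⟨c, hc, rfl⟩, hzF c hc⟩
  rw [this, hz.encard_image]

/-- Let `U` be a countably infinite universe and `n` in `ℕ ∪ {∞}`; only argumentation frameworks
which leave infinitely many elements of `U` unused are considered.

First part. If `n` arguments meet all the implicit conflicts between accepted arguments of `F`, then
some conflict-explicit argumentation framework, obtained from `F` by adding attacks and at most `n`
further arguments, has the same stable extensions as `F`.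

Second part. The number `n` is best possible, even for compact argumentation frameworks with exactly
`n` implicit conflicts: there is one, with `10 * n` arguments, such that every conflict-explicit
argumentation framework with the same stable extensions has at least `n` arguments which are not
arguments of `F`. -/
theorem result (U : Type) [Countable U] [Infinite U] (n : ℕ∞) :
    (∀ F : AF U, (F.A)ᶜ.Infinite →
      (∃ C : Set U, C.encard ≤ n ∧
        ∀ a b, Accepted F a → Accepted F b → Implicit F a b → a ∈ C ∨ b ∈ C) →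
      ∃ G : AF U, ConflictExplicit G ∧ st G = st F ∧ F.A ⊆ G.A ∧
        (∀ a b, F.R a b → G.R a b) ∧ (G.A \ F.A).encard ≤ n) ∧
    (∃ F : AF U, (F.A)ᶜ.Infinite ∧ F.A.encard = 10 * n ∧ Compact F ∧
      {p : Sym2 U | ∃ a b, p = s(a, b) ∧ Implicit F a b}.encard = n ∧
      ∀ G : AF U, ConflictExplicit G → st G = st F → n ≤ (G.A \ F.A).encard) := by
  refine ⟨?_, lower n⟩
  rintro F hF ⟨C, hCn, hcov⟩
  have hroom : (C ∩ F.A).encard ≤ (F.A)ᶜ.encard := by
    rw [hF.encard_eq]
    exact le_top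
  obtain ⟨G, h1, h2, h3, h4, h5⟩ := upper F (C ∩ F.A) Set.inter_subset_right
    (fun a b ha hb hab => (hcov a b ha hb hab).imp (fun h => ⟨h, hab.1⟩)
      (fun h => ⟨h, hab.2.1⟩)) hroom
  refine ⟨G, h1, h2, h3, h4, ?_⟩
  rw [h5]
  exact (Set.encard_le_encard Set.inter_subset_left).trans hCn

end Pool.Agent.Results.MP_360586_lc.CompactCounterexample
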